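import Pool.Agent.TH498.Almost.Defs

set_option autoImplicit false

/-!
# Blow-ups of a fixed graph
-/

open Filter Topology

namespace Pool.Agent.TH498.Almost

open Classical in
/-- The number of homomorphisms from `F` to `H`. -/
noncomputable def homs {k : ℕ} {V : Type} [Fintype V] (F : SimpleGraph (Fin k)) (H : SimpleGraph V) :
    ℕ :=
  (Finset.univ.filter fun x : Fin k → V => ∀ i j, F.Adj i j → H.Adj (x i) (x j)).card

/-- The balanced blow-up with `n` vertices of a graph whose vertices are numbered by `Fin N`. -/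
def blow {V : Type} (H : SimpleGraph V) {N : ℕ} (hN : 0 < N) (e : V ≃ Fin N) (n : ℕ) :
    SimpleGraph (Fin n) :=
  H.comap fun i => e.symm ⟨i.val % N, Nat.mod_lt _ hN⟩

lemma tendsto_fiber {N : ℕ} (hN : 0 < N) (c : Fin N) :
    Tendsto (fun n : ℕ => ((Finset.univ.filter fun i : Fin n =>
      (⟨i.val % N, Nat.mod_lt _ hN⟩ : Fin N) = c).card : ℝ) / n) atTop (𝓝 (1 / (N : ℝ))) := by
  have hcard : ∀ n : ℕ, (Finset.univ.filter fun i : Fin n =>
      (⟨i.val % N, Nat.mod_lt _ hN⟩ : Fin N) = c).card = n.count (· ≡ c.val [MOD N]) := by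
    intro n
    rw [Nat.count_eq_card_filter_range]
    refine Finset.card_bij (fun i _ => i.val) ?_ ?_ ?_
    · intro i hi
      simp only [Finset.mem_filter, Finset.mem_univ, true_and, Finset.mem_range] at hi ⊢
      refine ⟨i.isLt, ?_⟩
      have := congrArg Fin.val hi
      simp only at this
      unfold Nat.ModEq
      rw [this, Nat.mod_eq_of_lt c.isLt]
    · intro i _ j _ h
      exact Fin.ext h
    · intro i hi
      simp only [Finset.mem_filter, Finset.mem_range] at hi
      refine ⟨⟨i, hi.1⟩, ?_, rfl⟩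
      simp only [Finset.mem_filter, Finset.mem_univ, true_and]
      apply Fin.ext
      have h2 := hi.2
      unfold Nat.ModEq at h2
      rw [Nat.mod_eq_of_lt c.isLt] at h2
      exact h2
  have hN' : (0 : ℝ) < N := by exact_mod_cast hN
  have hb : ∀ n : ℕ, |((Finset.univ.filter fun i : Fin n =>
      (⟨i.val % N, Nat.mod_lt _ hN⟩ : Fin N) = c).card : ℝ) - (n : ℝ) / N| ≤ 1 := by
    intro n
    rw [hcard, Nat.count_modEq_card _ hN]
    have h1 : (n : ℝ) = N * (n / N : ℕ) + (n % N : ℕ) := by
      exact_mod_cast (Nat.div_add_mod n N).symm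
    have h2 : (n : ℝ) / N = (n / N : ℕ) + ((n % N : ℕ) : ℝ) / N := by
      rw [eq_comm]
      field_simp
      linarith
    have h3 : ((n % N : ℕ) : ℝ) / N < 1 := by
      rw [div_lt_one hN']
      exact_mod_cast Nat.mod_lt _ hN
    have h4 : 0 ≤ ((n % N : ℕ) : ℝ) / N := by positivity
    rw [h2]
    push_cast
    split_ifs <;> rw [abs_le] <;> constructor <;> linarith
  have h0 : Tendsto (fun n : ℕ => (1 : ℝ) / n) atTop (𝓝 0) := tendsto_one_div_atTop_nhds_zero_nat
  rw [← tendsto_sub_nhds_zero_iff]
  refine squeeze_zero_norm' ?_ h0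
  filter_upwards [eventually_gt_atTop 0] with n hn
  have hn' : (0 : ℝ) < n := by exact_mod_cast hn
  have : ((Finset.univ.filter fun i : Fin n =>
      (⟨i.val % N, Nat.mod_lt _ hN⟩ : Fin N) = c).card : ℝ) / n - 1 / N =
      (((Finset.univ.filter fun i : Fin n =>
      (⟨i.val % N, Nat.mod_lt _ hN⟩ : Fin N) = c).card : ℝ) - (n : ℝ) / N) / n := by
    field_simp
  rw [this, Real.norm_eq_abs, abs_div, abs_of_pos hn']
  gcongr
  exact hb n

open Classical in
lemma homs_blow {k : ℕ} {V : Type} [Fintype V] (F : SimpleGraph (Fin k)) (H : SimpleGraph V)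
    {N : ℕ} (hN : 0 < N) (e : V ≃ Fin N) (n : ℕ) :
    homs F (blow H hN e n) = ∑ φ ∈ (Finset.univ.filter fun x : Fin k → V =>
      ∀ i j, F.Adj i j → H.Adj (x i) (x j)), ∏ i, (Finset.univ.filter fun a : Fin n =>
      (⟨a.val % N, Nat.mod_lt _ hN⟩ : Fin N) = e (φ i)).card := by
  unfold homs
  let g : Fin n → V := fun i => e.symm ⟨i.val % N, Nat.mod_lt _ hN⟩
  rw [Finset.card_eq_sum_card_fiberwise (f := fun x : Fin k → Fin n => fun i => g (x i))
    (t := Finset.univ.filter fun x : Fin k → V => ∀ i j, F.Adj i j → H.Adj (x i) (x j))]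
  · refine Finset.sum_congr rfl fun φ hφ => ?_
    rw [← Fintype.card_piFinset]
    congr 1
    ext x
    simp only [Finset.mem_filter, Finset.mem_univ, true_and, Fintype.mem_piFinset] at hφ ⊢
    constructor
    · rintro ⟨-, h⟩ i
      have := congrFun h i
      simp only [g] at this
      rw [← this, Equiv.apply_symm_apply]
    · intro h
      have hx : (fun i => g (x i)) = φ := by
        funext i
        simp only [g]
        rw [h i, Equiv.symm_apply_apply]
      refine ⟨?_, hx⟩
      intro i j hij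
      change H.Adj (g (x i)) (g (x j))
      have h1 := congrFun hx i
      have h2 := congrFun hx j
      rw [h1, h2]
      exact hφ i j hij
  · intro x hx
    simp only [Finset.coe_filter, Finset.mem_univ, true_and, Set.mem_ofPred_eq] at hx ⊢
    intro i j hij
    exact hx i j hij

lemma tendsto_homs_blow {k : ℕ} {V : Type} [Fintype V] (F : SimpleGraph (Fin k))
    (H : SimpleGraph V) {N : ℕ} (hN : 0 < N) (e : V ≃ Fin N) :
    Tendsto (fun n : ℕ => (homs F (blow H hN e n) : ℝ) / (n : ℝ) ^ k) atTop
      (𝓝 ((homs F H : ℝ) / (N : ℝ) ^ k)) := by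
  classical
  have h1 : ∀ n : ℕ, (homs F (blow H hN e n) : ℝ) / (n : ℝ) ^ k =
      ∑ φ ∈ (Finset.univ.filter fun x : Fin k → V =>
        ∀ i j, F.Adj i j → H.Adj (x i) (x j)), ∏ i, (((Finset.univ.filter fun a : Fin n =>
        (⟨a.val % N, Nat.mod_lt _ hN⟩ : Fin N) = e (φ i)).card : ℝ) / n) := by
    intro n
    rw [homs_blow]
    push_cast
    rw [Finset.sum_div]
    refine Finset.sum_congr (by congr) fun φ _ => ?_
    rw [Finset.prod_div_distrib]
    congr 1
    rw [Finset.prod_const, Finset.card_univ, Fintype.card_fin]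
  have h2 : (homs F H : ℝ) / (N : ℝ) ^ k = ∑ φ ∈ (Finset.univ.filter fun x : Fin k → V =>
        ∀ i j, F.Adj i j → H.Adj (x i) (x j)), ∏ _i : Fin k, (1 / (N : ℝ)) := by
    rw [Finset.sum_const, Finset.prod_const, Finset.card_univ, Fintype.card_fin, nsmul_eq_mul]
    unfold homs
    rw [div_pow, one_pow, mul_one_div]
  simp_rw [h1]
  rw [h2]
  exact tendsto_finsetSum _ fun φ _ => tendsto_finsetProd _ fun i _ => tendsto_fiber hN _

lemma emb_eq {k n : ℕ} (F : SimpleGraph (Fin k)) (G : SimpleGraph (Fin n)) :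
    emb F G ≤ homs F G := by
  classical
  unfold emb homs
  rw [Nat.card_eq_fintype_card, Fintype.card_subtype]
  apply Finset.card_le_card
  intro x hx
  simp only [Finset.mem_filter, Finset.mem_univ, true_and] at hx ⊢
  exact hx.2

lemma homs_le {k n : ℕ} (F : SimpleGraph (Fin k)) (G : SimpleGraph (Fin n)) :
    homs F G + n.descFactorial k ≤ emb F G + n ^ k := by
  classical
  have hinj : (Finset.univ.filter fun x : Fin k → Fin n => Function.Injective x).card =
      n.descFactorial k := by
    have h0 := Fintype.card_embedding_eq (α := Fin k) (β := Fin n)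
    rw [Fintype.card_fin, Fintype.card_fin] at h0
    rw [← h0, ← Fintype.card_subtype]
    exact Fintype.card_congr (Equiv.subtypeInjectiveEquivEmbedding _ _)
  have hall : (Finset.univ : Finset (Fin k → Fin n)).card = n ^ k := by
    rw [Finset.card_univ, Fintype.card_fun, Fintype.card_fin, Fintype.card_fin]
  rw [← hinj, ← hall]
  unfold emb homs
  rw [Nat.card_eq_fintype_card, Fintype.card_subtype]
  set A := Finset.univ.filter fun x : Fin k → Fin n => ∀ i j, F.Adj i j → G.Adj (x i) (x j)
  set B := Finset.univ.filter fun x : Fin k → Fin n => Function.Injective x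
  have h1 : (Finset.univ.filter fun f : Fin k → Fin n => Function.Injective f ∧
      ∀ i j, F.Adj i j → G.Adj (f i) (f j)) = A ∩ B := by
    ext x
    simp only [A, B, Finset.mem_filter, Finset.mem_univ, true_and, Finset.mem_inter]
    tauto
  rw [h1, ← Finset.card_union_add_card_inter, add_comm]
  gcongr
  exact Finset.subset_univ _

/-- Injective counts have the same limit. -/
lemma tendsto_emb_blow {k : ℕ} {V : Type} [Fintype V] (F : SimpleGraph (Fin k))
    (H : SimpleGraph V) {N : ℕ} (hN : 0 < N) (e : V ≃ Fin N) :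
    Tendsto (fun n : ℕ => (emb F (blow H hN e n) : ℝ) / (n.descFactorial k : ℝ)) atTop
      (𝓝 ((homs F H : ℝ) / (N : ℝ) ^ k)) := by
  have hd : Tendsto (fun n : ℕ => (n.descFactorial k : ℝ) / (n : ℝ) ^ k) atTop (𝓝 1) := by
    have h := isEquivalent_descFactorial k
    rw [Asymptotics.isEquivalent_iff_tendsto_one] at h
    · exact h
    · filter_upwards [eventually_gt_atTop 0] with n hn
      positivity
  have hh := tendsto_homs_blow F H hN e
  have he : Tendsto (fun n : ℕ => (emb F (blow H hN e n) : ℝ) / (n : ℝ) ^ k) atTop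
      (𝓝 ((homs F H : ℝ) / (N : ℝ) ^ k)) := by
    have hlow : Tendsto (fun n : ℕ => (homs F (blow H hN e n) : ℝ) / (n : ℝ) ^ k +
        (n.descFactorial k : ℝ) / (n : ℝ) ^ k - 1) atTop (𝓝 ((homs F H : ℝ) / (N : ℝ) ^ k)) := by
      have := (hh.add hd).sub_const 1
      simpa using this
    refine tendsto_of_tendsto_of_tendsto_of_le_of_le' hlow hh ?_ ?_
    · filter_upwards [eventually_gt_atTop 0] with n hn
      have h1 := homs_le F (blow H hN e n)
      have h2 : (homs F (blow H hN e n) : ℝ) + (n.descFactorial k : ℝ) ≤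
          (emb F (blow H hN e n) : ℝ) + (n : ℝ) ^ k := by exact_mod_cast h1
      have hp : (0 : ℝ) < (n : ℝ) ^ k := by positivity
      have h3 : (homs F (blow H hN e n) : ℝ) / (n : ℝ) ^ k + (n.descFactorial k : ℝ) / (n : ℝ) ^ k
          - 1 = ((homs F (blow H hN e n) : ℝ) + (n.descFactorial k : ℝ) - (n : ℝ) ^ k) /
            (n : ℝ) ^ k := by
        field_simp
      rw [h3]
      gcongr
      linarith
    · filter_upwards with n
      have h1 := emb_eq F (blow H hN e n)
      gcongr
  have := he.div hd one_ne_zero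
  rw [div_one] at this
  refine this.congr' ?_
  filter_upwards [eventually_gt_atTop 0] with n hn
  have hp : (0 : ℝ) < (n : ℝ) ^ k := by positivity
  simp only [Pi.div_apply]
  field_simp

end Pool.Agent.TH498.Almost
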