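import Mathlib

set_option autoImplicit false

/-!
# Second order expansion of the number of proper colourings

For a finite simple graph `F` on `Fin k` with `e` edges and `t` triangles, the proportion of proper
colourings with `m` colours is `(1 - 1/m)^e - t / m^2 + O(m^(-3))`.
-/

open Filter Topology

namespace Pool.Agent.TH498.Almost

variable {k : ℕ}

/-- `x` is constant on the pair `e`. -/
abbrev Mono {m : ℕ} (x : Fin k → Fin m) (e : Sym2 (Fin k)) : Prop := (e.map x).IsDiag

open Classical in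
/-- The number of maps constant on all members of `S`. -/
noncomputable def N (m : ℕ) (S : Finset (Sym2 (Fin k))) : ℕ :=
  (Finset.univ.filter fun x : Fin k → Fin m => ∀ e ∈ S, Mono x e).card

/-- The proportion of maps constant on all members of `S`. -/
noncomputable def T (m : ℕ) (S : Finset (Sym2 (Fin k))) : ℝ := (N m S : ℝ) / (m : ℝ) ^ k

lemma N_empty (m : ℕ) : N m (∅ : Finset (Sym2 (Fin k))) = m ^ k := by
  classical
  simp [N]

lemma T_empty {m : ℕ} (hm : 1 ≤ m) : T m (∅ : Finset (Sym2 (Fin k))) = 1 := by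
  have : (m : ℝ) ≠ 0 := by positivity
  rw [T, N_empty]
  push_cast
  exact div_self (pow_ne_zero _ this)

lemma N_mono (m : ℕ) {S S' : Finset (Sym2 (Fin k))} (h : S' ⊆ S) : N m S ≤ N m S' := by
  classical
  unfold N
  apply Finset.card_le_card
  intro x hx
  simp only [Finset.mem_filter, Finset.mem_univ, true_and] at hx ⊢
  exact fun e he => hx e (h he)

lemma T_mono (m : ℕ) {S S' : Finset (Sym2 (Fin k))} (h : S' ⊆ S) : T m S ≤ T m S' := by
  unfold T
  have := N_mono m h
  gcongr

lemma T_nonneg (m : ℕ) (S : Finset (Sym2 (Fin k))) : 0 ≤ T m S := by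
  unfold T; positivity

lemma map_update_of_not_mem {m : ℕ} (x : Fin k → Fin m) (v : Fin k) (c : Fin m)
    (e : Sym2 (Fin k)) (hv : v ∉ e) : e.map (Function.update x v c) = e.map x := by
  induction e using Sym2.inductionOn with
  | hf a b =>
    rw [Sym2.mem_iff, not_or] at hv
    simp only [Sym2.map_mk]
    rw [Function.update_of_ne (Ne.symm hv.1), Function.update_of_ne (Ne.symm hv.2)]

/-- Removing a leaf. -/
lemma leaf_step_N (m : ℕ) {S : Finset (Sym2 (Fin k))} {v w : Fin k} (hvw : v ≠ w)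
    (hv : ∀ e ∈ S, v ∉ e) : N m S = m * N m (insert s(v, w) S) := by
  classical
  have hcard : m * N m (insert s(v, w) S) =
      ((Finset.univ.filter fun x : Fin k → Fin m => ∀ e ∈ insert s(v, w) S, Mono x e) ×ˢ
        (Finset.univ : Finset (Fin m))).card := by
    rw [Finset.card_product, Finset.card_univ, Fintype.card_fin, mul_comm]; rfl
  rw [hcard]
  unfold N
  symm
  refine Finset.card_bij (fun (p : (Fin k → Fin m) × Fin m) _ => Function.update p.1 v p.2) ?_ ?_ ?_
  · rintro ⟨x, c⟩ hx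
    simp only [Finset.mem_product, Finset.mem_filter, Finset.mem_univ, true_and, and_true] at hx ⊢
    intro e he
    unfold Mono
    rw [map_update_of_not_mem x v c e (hv e he)]
    exact hx e (Finset.mem_insert_of_mem he)
  · rintro ⟨x, c⟩ hx ⟨y, d⟩ hy hxy
    simp only [Finset.mem_product, Finset.mem_filter, Finset.mem_univ, true_and, and_true] at hx hy
    have hcd : c = d := by
      have := congrFun hxy v
      simpa using this
    have hx' := hx _ (Finset.mem_insert_self _ _)
    have hy' := hy _ (Finset.mem_insert_self _ _)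
    simp only [Mono, Sym2.map_mk, Sym2.mk_isDiag_iff] at hx' hy'
    have hne : ∀ u, u ≠ v → x u = y u := by
      intro u hu
      have := congrFun hxy u
      simpa [Function.update_of_ne hu] using this
    have : x = y := by
      funext u
      by_cases hu : u = v
      · subst hu
        rw [hx', hy']
        exact hne w (Ne.symm hvw)
      · exact hne u hu
    rw [this, hcd]
  · intro x hx
    simp only [Finset.mem_filter, Finset.mem_univ, true_and] at hx
    refine ⟨(Function.update x v (x w), x v), ?_, ?_⟩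
    · simp only [Finset.mem_product, Finset.mem_filter, Finset.mem_univ, true_and, and_true]
      intro e he
      rw [Finset.mem_insert] at he
      rcases he with rfl | he
      · simp only [Mono, Sym2.map_mk, Sym2.mk_isDiag_iff]
        rw [Function.update_self, Function.update_of_ne (Ne.symm hvw)]
      · unfold Mono
        rw [map_update_of_not_mem x v _ e (hv e he)]
        exact hx e he
    · simp

lemma leaf_step {m : ℕ} (hm : 1 ≤ m) {S : Finset (Sym2 (Fin k))} {v w : Fin k} (hvw : v ≠ w)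
    (hv : ∀ e ∈ S, v ∉ e) : T m (insert s(v, w) S) = T m S / m := by
  have h0 : (m : ℝ) ≠ 0 := by positivity
  unfold T
  rw [leaf_step_N m hvw hv]
  push_cast
  field_simp

/-- Some member of `S` has an endpoint that no other member has. -/
def HasLeaf (S : Finset (Sym2 (Fin k))) : Prop :=
  ∃ e ∈ S, ∃ v ∈ e, ∀ e' ∈ S, e' ≠ e → v ∉ e'

lemma T_of_leaf {m : ℕ} (hm : 1 ≤ m) {S : Finset (Sym2 (Fin k))} (hS : ∀ e ∈ S, ¬ e.IsDiag)
    (h : HasLeaf S) : ∃ e ∈ S, T m S = T m (S.erase e) / m := by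
  classical
  obtain ⟨e, he, v, hv, hv'⟩ := h
  refine ⟨e, he, ?_⟩
  obtain ⟨w, rfl⟩ := hv
  have hvw : v ≠ w := by
    have := hS _ he
    rwa [Sym2.mk_isDiag_iff] at this
  have h1 := leaf_step hm (S := S.erase s(v, w)) hvw (by
    intro e' he'
    rw [Finset.mem_erase] at he'
    exact hv' e' he'.2 he'.1)
  rwa [Finset.insert_erase he] at h1

lemma exists_not_mem {e e' : Sym2 (Fin k)} (he' : ¬ e'.IsDiag) (hne : e ≠ e') :
    ∃ v ∈ e', v ∉ e := by
  induction e' using Sym2.inductionOn with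
  | hf a b =>
    rw [Sym2.mk_isDiag_iff] at he'
    by_contra hcon
    push Not at hcon
    have ha := hcon a (Sym2.mem_mk_left a b)
    have hb := hcon b (Sym2.mem_mk_right a b)
    exact hne ((Sym2.mem_and_mem_iff he').1 ⟨ha, hb⟩)

lemma hasLeaf_two {S : Finset (Sym2 (Fin k))} (hS : ∀ e ∈ S, ¬ e.IsDiag) (hc : S.card = 2) :
    HasLeaf S := by
  classical
  rw [Finset.card_eq_two] at hc
  obtain ⟨e, e', hne, rfl⟩ := hc
  obtain ⟨v, hv, hv'⟩ := exists_not_mem (hS e' (by simp)) hne
  refine ⟨e', by simp, v, hv, ?_⟩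
  intro f hf hfe
  simp only [Finset.mem_insert, Finset.mem_singleton] at hf
  rcases hf with rfl | rfl
  · exact hv'
  · exact (hfe rfl).elim

lemma hasLeaf_one {S : Finset (Sym2 (Fin k))} (hc : S.card = 1) :
    HasLeaf S := by
  classical
  rw [Finset.card_eq_one] at hc
  obtain ⟨e, rfl⟩ := hc
  refine ⟨e, by simp, ?_⟩
  induction e using Sym2.inductionOn with
  | hf a b =>
    refine ⟨a, Sym2.mem_mk_left a b, ?_⟩
    intro f hf hfe
    simp only [Finset.mem_singleton] at hf
    exact (hfe hf).elim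

lemma T_small {m : ℕ} (hm : 1 ≤ m) {S : Finset (Sym2 (Fin k))} (hS : ∀ e ∈ S, ¬ e.IsDiag)
    (hc : S.card ≤ 2) : T m S = (1 / (m : ℝ)) ^ S.card := by
  classical
  have key : ∀ n : ℕ, n ≤ 2 → ∀ S : Finset (Sym2 (Fin k)), (∀ e ∈ S, ¬ e.IsDiag) → S.card = n →
      T m S = (1 / (m : ℝ)) ^ n := by
    intro n
    induction n with
    | zero =>
      intro _ S _ hc
      rw [Finset.card_eq_zero] at hc
      subst hc
      rw [T_empty hm, pow_zero]
    | succ n ih =>
      intro hn S hS hc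
      have hl : HasLeaf S := by
        have h01 : n = 0 ∨ n = 1 := by omega
        rcases h01 with rfl | rfl
        · exact hasLeaf_one hc
        · exact hasLeaf_two hS hc
      obtain ⟨e, he, h1⟩ := T_of_leaf hm hS hl
      rw [h1, ih (by omega) (S.erase e) (fun f hf => hS f (Finset.mem_of_mem_erase hf))
        (by rw [Finset.card_erase_of_mem he]; omega), pow_succ]
      ring
  exact key _ hc S hS rfl

lemma T_three_leaf {m : ℕ} (hm : 1 ≤ m) {S : Finset (Sym2 (Fin k))} (hS : ∀ e ∈ S, ¬ e.IsDiag)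
    (hc : S.card = 3) (hl : HasLeaf S) : T m S = (1 / (m : ℝ)) ^ 3 := by
  classical
  obtain ⟨e, he, h1⟩ := T_of_leaf hm hS hl
  rw [h1, T_small hm (fun f hf => hS f (Finset.mem_of_mem_erase hf))
        (by rw [Finset.card_erase_of_mem he]; omega), Finset.card_erase_of_mem he, hc]
  ring

/-- In a leafless triple the third edge is determined by the two others. -/
lemma third_eq {e1 e2 e3 : Sym2 (Fin k)} (h1 : ¬ e1.IsDiag) (h2 : ¬ e2.IsDiag)
    (h12 : e1 ≠ e2) (h13 : e1 ≠ e3) (h23 : e2 ≠ e3)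
    (hl : ¬ HasLeaf ({e1, e2, e3} : Finset (Sym2 (Fin k)))) {v1 v2 : Fin k}
    (hv1 : v1 ∈ e1) (hv1' : v1 ∉ e2) (hv2 : v2 ∈ e2) (hv2' : v2 ∉ e1) : e3 = s(v1, v2) := by
  classical
  have hne : v1 ≠ v2 := by
    rintro rfl; exact hv2' hv1
  have a1 : v1 ∈ e3 := by
    by_contra hcon
    apply hl
    refine ⟨e1, by simp, v1, hv1, ?_⟩
    intro f hf hfe
    simp only [Finset.mem_insert, Finset.mem_singleton] at hf
    rcases hf with rfl | rfl | rfl
    · exact (hfe rfl).elim
    · exact hv1'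
    · exact hcon
  have a2 : v2 ∈ e3 := by
    by_contra hcon
    apply hl
    refine ⟨e2, by simp, v2, hv2, ?_⟩
    intro f hf hfe
    simp only [Finset.mem_insert, Finset.mem_singleton] at hf
    rcases hf with rfl | rfl | rfl
    · exact hv2'
    · exact (hfe rfl).elim
    · exact hcon
  exact (Sym2.mem_and_mem_iff hne).1 ⟨a1, a2⟩

/-- A set of at least four edges contains a triple with a leaf. -/
lemma exists_three_leaf {S : Finset (Sym2 (Fin k))} (hS : ∀ e ∈ S, ¬ e.IsDiag)
    (hc : 4 ≤ S.card) : ∃ S' ⊆ S, S'.card = 3 ∧ HasLeaf S' := by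
  classical
  obtain ⟨S4, hS4, hc4⟩ := Finset.exists_subset_card_eq hc
  obtain ⟨e4, S3, he4, rfl, hc3⟩ := Finset.card_eq_succ.1 hc4
  obtain ⟨e1, e2, e3, h12, h13, h23, rfl⟩ := Finset.card_eq_three.1 hc3
  simp only [Finset.mem_insert, Finset.mem_singleton, not_or] at he4
  by_cases hl : HasLeaf ({e1, e2, e3} : Finset (Sym2 (Fin k)))
  · exact ⟨_, (Finset.subset_insert _ _).trans hS4, hc3, hl⟩
  · refine ⟨{e1, e2, e4}, ?_, ?_, ?_⟩
    · refine Finset.Subset.trans ?_ hS4
      intro f hf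
      simp only [Finset.mem_insert, Finset.mem_singleton] at hf ⊢
      tauto
    · rw [Finset.card_eq_three]
      exact ⟨e1, e2, e4, h12, fun h => he4.1 h.symm, fun h => he4.2.1 h.symm, rfl⟩
    · by_contra hl'
      have m1 : ¬ e1.IsDiag := hS e1 (hS4 (by simp))
      have m2 : ¬ e2.IsDiag := hS e2 (hS4 (by simp))
      obtain ⟨v1, hv1, hv1'⟩ := exists_not_mem m1 (Ne.symm h12)
      obtain ⟨v2, hv2, hv2'⟩ := exists_not_mem m2 h12
      have q3 := third_eq m1 m2 h12 h13 h23 hl hv1 hv1' hv2 hv2'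
      have q4 := third_eq m1 m2 h12 (fun h => he4.1 h.symm) (fun h => he4.2.1 h.symm) hl'
        hv1 hv1' hv2 hv2'
      exact he4.2.2 (q4.trans q3.symm)

/-- The value for a leafless triple. -/
lemma T_three_leafless {m : ℕ} (hm : 1 ≤ m) {S : Finset (Sym2 (Fin k))}
    (hS : ∀ e ∈ S, ¬ e.IsDiag) (hc : S.card = 3) (hl : ¬ HasLeaf S) :
    T m S = (1 / (m : ℝ)) ^ 2 := by
  classical
  obtain ⟨e1, e2, e3, h12, h13, h23, rfl⟩ := Finset.card_eq_three.1 hc
  have m1 : ¬ e1.IsDiag := hS e1 (by simp)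
  have m2 : ¬ e2.IsDiag := hS e2 (by simp)
  obtain ⟨v1, hv1, hv1'⟩ := exists_not_mem m1 (Ne.symm h12)
  obtain ⟨v2, hv2, hv2'⟩ := exists_not_mem m2 h12
  have q3 := third_eq m1 m2 h12 h13 h23 hl hv1 hv1' hv2 hv2'
  subst q3
  -- the common vertex
  obtain ⟨w1, rfl⟩ := hv1
  obtain ⟨w2, rfl⟩ := hv2
  rw [Sym2.mk_isDiag_iff] at m1 m2
  rw [Sym2.mem_iff, not_or] at hv1' hv2'
  have hw : w1 = w2 := by
    by_contra hcon
    apply hl
    refine ⟨s(v1, w1), by simp, w1, by simp, ?_⟩
    intro f hf hfe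
    simp only [Finset.mem_insert, Finset.mem_singleton] at hf
    rcases hf with rfl | rfl | rfl
    · exact (hfe rfl).elim
    · rw [Sym2.mem_iff, not_or]
      exact ⟨Ne.symm hv2'.2, hcon⟩
    · rw [Sym2.mem_iff, not_or]
      exact ⟨Ne.symm m1, Ne.symm hv2'.2⟩
  subst hw
  have hN : N m ({s(v1, w1), s(v2, w1), s(v1, v2)} : Finset (Sym2 (Fin k))) =
      N m ({s(v1, w1), s(v2, w1)} : Finset (Sym2 (Fin k))) := by
    unfold N
    congr 1
    ext x
    simp only [Finset.mem_filter, Finset.mem_univ, true_and, Finset.mem_insert,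
      Finset.mem_singleton, forall_eq_or_imp, forall_eq, Mono, Sym2.map_mk, Sym2.mk_isDiag_iff]
    constructor
    · rintro ⟨a, b, -⟩; exact ⟨a, b⟩
    · rintro ⟨a, b⟩; exact ⟨a, b, a.trans b.symm⟩
  have hT : T m ({s(v1, w1), s(v2, w1), s(v1, v2)} : Finset (Sym2 (Fin k))) =
      T m ({s(v1, w1), s(v2, w1)} : Finset (Sym2 (Fin k))) := by
    unfold T; rw [hN]
  rw [hT]
  have hc2 : ({s(v1, w1), s(v2, w1)} : Finset (Sym2 (Fin k))).card = 2 :=
    Finset.card_pair h12
  rw [T_small hm (by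
    intro e he
    exact hS e (by
      simp only [Finset.mem_insert, Finset.mem_singleton] at he ⊢
      tauto)) hc2.le, hc2]

open Classical in
/-- The termwise limit. -/
lemma tendsto_term {S : Finset (Sym2 (Fin k))} (hS : ∀ e ∈ S, ¬ e.IsDiag) :
    Tendsto (fun m : ℕ => (m : ℝ) ^ 2 * (T m S - (1 / (m : ℝ)) ^ S.card)) atTop
      (𝓝 (if S.card = 3 ∧ ¬ HasLeaf S then 1 else 0)) := by
  have hinv : Tendsto (fun m : ℕ => (1 : ℝ) / m) atTop (𝓝 0) := tendsto_one_div_atTop_nhds_zero_nat
  rcases Nat.lt_or_ge S.card 3 with h | h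
  · have : ¬ (S.card = 3 ∧ ¬ HasLeaf S) := by omega
    rw [if_neg this]
    refine tendsto_const_nhds.congr' ?_
    filter_upwards [eventually_ge_atTop 1] with m hm
    rw [T_small hm hS (by omega)]; ring
  rcases Nat.eq_or_lt_of_le h with h3 | h4
  · by_cases hl : HasLeaf S
    · have : ¬ (S.card = 3 ∧ ¬ HasLeaf S) := by tauto
      rw [if_neg this]
      refine tendsto_const_nhds.congr' ?_
      filter_upwards [eventually_ge_atTop 1] with m hm
      rw [T_three_leaf hm hS h3.symm hl, ← h3]; ring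
    · rw [if_pos ⟨h3.symm, hl⟩]
      have h1 : Tendsto (fun m : ℕ => 1 - (1 : ℝ) / m) atTop (𝓝 1) := by
        simpa using tendsto_const_nhds.sub hinv
      refine h1.congr' ?_
      filter_upwards [eventually_ge_atTop 1] with m hm
      have h0 : (m : ℝ) ≠ 0 := by positivity
      rw [T_three_leafless hm hS h3.symm hl, ← h3]
      field_simp
  · have : ¬ (S.card = 3 ∧ ¬ HasLeaf S) := by omega
    rw [if_neg this]
    obtain ⟨S', hS', hc', hl'⟩ := exists_three_leaf hS h4
    refine squeeze_zero_norm' ?_ hinv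
    filter_upwards [eventually_ge_atTop 1] with m hm
    have h0 : (0 : ℝ) < m := by positivity
    have hm1 : (1 : ℝ) ≤ m := by exact_mod_cast hm
    have a1 : T m S ≤ (1 / (m : ℝ)) ^ 3 := by
      refine (T_mono m hS').trans (T_three_leaf hm (fun e he => hS e (hS' he)) hc' hl').le
    have a2 : (1 / (m : ℝ)) ^ S.card ≤ (1 / (m : ℝ)) ^ 3 := by
      apply pow_le_pow_of_le_one (by positivity) _ h
      rw [div_le_one h0]; exact hm1
    have a3 : 0 ≤ (1 / (m : ℝ)) ^ S.card := by positivity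
    have a4 := T_nonneg m S
    have a5 : |T m S - (1 / (m : ℝ)) ^ S.card| ≤ (1 / (m : ℝ)) ^ 3 := by
      rw [abs_le]; constructor <;> linarith
    rw [Real.norm_eq_abs, abs_mul, abs_of_nonneg (by positivity : (0 : ℝ) ≤ (m : ℝ) ^ 2)]
    calc (m : ℝ) ^ 2 * |T m S - (1 / (m : ℝ)) ^ S.card| ≤ (m : ℝ) ^ 2 * (1 / (m : ℝ)) ^ 3 := by
          gcongr
      _ = 1 / (m : ℝ) := by field_simp

end Pool.Agent.TH498.Almost
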