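import Pool.Agent.TH498.Almost.Chrom

set_option autoImplicit false

open Filter Topology

namespace Pool.Agent.TH498.Almost

variable {k : ℕ}

open Classical in
/-- The number of maps `Fin k → Fin m` that are not constant on any member of `E`. -/
noncomputable def P (m : ℕ) (E : Finset (Sym2 (Fin k))) : ℕ :=
  (Finset.univ.filter fun x : Fin k → Fin m => ∀ e ∈ E, ¬ Mono x e).card

open Classical in
/-- The number of leafless triples. -/
noncomputable def tau (E : Finset (Sym2 (Fin k))) : ℕ :=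
  (E.powerset.filter fun S => S.card = 3 ∧ ¬ HasLeaf S).card

lemma P_eq (m : ℕ) (E : Finset (Sym2 (Fin k))) :
    (P m E : ℝ) / (m : ℝ) ^ k = ∑ S ∈ E.powerset, (-1) ^ S.card * T m S := by
  classical
  have h1 : (P m E : ℝ) = ∑ x : Fin k → Fin m, ∏ e ∈ E, (1 + -(if Mono x e then (1 : ℝ) else 0)) := by
    unfold P
    rw [Finset.card_filter]
    push_cast
    refine Finset.sum_congr rfl fun x _ => ?_
    split_ifs with h
    · symm
      apply Finset.prod_eq_one
      intro e he
      rw [if_neg (h e he)]; simp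
    · push Not at h
      obtain ⟨e, he, hm⟩ := h
      symm
      apply Finset.prod_eq_zero he
      rw [if_pos hm]; simp
  have h2 : ∀ x : Fin k → Fin m, ∏ e ∈ E, (1 + -(if Mono x e then (1 : ℝ) else 0)) =
      ∑ S ∈ E.powerset, (-1) ^ S.card * (if ∀ e ∈ S, Mono x e then (1 : ℝ) else 0) := by
    intro x
    rw [Finset.prod_one_add]
    refine Finset.sum_congr rfl fun S _ => ?_
    rw [Finset.prod_neg]
    congr 1
    split_ifs with h
    · exact Finset.prod_eq_one fun e he => by rw [if_pos (h e he)]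
    · push Not at h
      obtain ⟨e, he, hm⟩ := h
      exact Finset.prod_eq_zero he (by rw [if_neg hm])
  rw [h1, Finset.sum_congr rfl fun x _ => h2 x, Finset.sum_comm, Finset.sum_div]
  refine Finset.sum_congr rfl fun S _ => ?_
  rw [← Finset.mul_sum, mul_div_assoc]
  congr 1
  unfold T N
  rw [Finset.card_filter]
  push_cast
  rfl

lemma pow_eq (q : ℝ) (E : Finset (Sym2 (Fin k))) :
    (1 - q) ^ E.card = ∑ S ∈ E.powerset, (-1) ^ S.card * q ^ S.card := by
  classical
  have : (1 - q) ^ E.card = ∏ _e ∈ E, (1 + -q) := by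
    rw [Finset.prod_const, sub_eq_add_neg]
  rw [this, Finset.prod_one_add]
  refine Finset.sum_congr rfl fun S _ => ?_
  rw [Finset.prod_const, neg_pow]

lemma tendsto_diff {E : Finset (Sym2 (Fin k))} (hE : ∀ e ∈ E, ¬ e.IsDiag) :
    Tendsto (fun m : ℕ => (m : ℝ) ^ 2 * ((P m E : ℝ) / (m : ℝ) ^ k - (1 - 1 / (m : ℝ)) ^ E.card))
      atTop (𝓝 (-(tau E : ℝ))) := by
  classical
  have h1 : ∀ m : ℕ, (m : ℝ) ^ 2 * ((P m E : ℝ) / (m : ℝ) ^ k - (1 - 1 / (m : ℝ)) ^ E.card) =
      ∑ S ∈ E.powerset, (-1) ^ S.card * ((m : ℝ) ^ 2 * (T m S - (1 / (m : ℝ)) ^ S.card)) := by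
    intro m
    rw [P_eq, pow_eq, ← Finset.sum_sub_distrib, Finset.mul_sum]
    refine Finset.sum_congr rfl fun S _ => ?_
    ring
  simp_rw [h1]
  have h2 : (-(tau E : ℝ)) = ∑ S ∈ E.powerset,
      (-1) ^ S.card * (if S.card = 3 ∧ ¬ HasLeaf S then (1 : ℝ) else 0) := by
    unfold tau
    rw [Finset.card_filter]
    push_cast
    rw [← Finset.sum_neg_distrib]
    refine Finset.sum_congr rfl fun S _ => ?_
    split_ifs with h
    · rw [h.1]; norm_num
    · simp
  rw [h2]
  refine tendsto_finsetSum _ fun S hS => ?_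
  exact (tendsto_term fun e he => hE e (Finset.mem_powerset.1 hS he)).const_mul _

/-- The main limit: `((P_m / m^k) / (1 - 1/m)^e)^(m^2) → exp (-tau)`. -/
lemma tendsto_main {E : Finset (Sym2 (Fin k))} (hE : ∀ e ∈ E, ¬ e.IsDiag) :
    Tendsto (fun m : ℕ => (((P m E : ℝ) / (m : ℝ) ^ k) / (1 - 1 / (m : ℝ)) ^ E.card) ^ (m ^ 2))
      atTop (𝓝 (Real.exp (-(tau E : ℝ)))) := by
  set a : ℕ → ℝ := fun m => ((P m E : ℝ) / (m : ℝ) ^ k) / (1 - 1 / (m : ℝ)) ^ E.card with ha
  have hinv : Tendsto (fun m : ℕ => (1 : ℝ) / m) atTop (𝓝 0) := tendsto_one_div_atTop_nhds_zero_nat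
  have hq : Tendsto (fun m : ℕ => (1 - 1 / (m : ℝ)) ^ E.card) atTop (𝓝 1) := by
    have := (tendsto_const_nhds (x := (1 : ℝ))).sub hinv
    simpa using this.pow E.card
  have hd := tendsto_diff hE
  have hsq : Tendsto (fun m : ℕ => (m : ℝ) ^ 2 * (a m - 1)) atTop (𝓝 (-(tau E : ℝ))) := by
    have h1 := hd.div hq one_ne_zero
    rw [div_one] at h1
    refine h1.congr' ?_
    filter_upwards [hq.eventually_ne one_ne_zero] with m hm
    simp only [ha, Pi.div_apply]
    field_simp
  have hone : Tendsto a atTop (𝓝 1) := by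
    have h2 : Tendsto (fun m : ℕ => ((m : ℝ) ^ 2 * (a m - 1)) * (1 / (m : ℝ)) ^ 2 + 1) atTop
        (𝓝 (-(tau E : ℝ) * 0 ^ 2 + 1)) := (hsq.mul (hinv.pow 2)).add_const 1
    have h3 : (-(tau E : ℝ) * 0 ^ 2 + 1) = 1 := by simp
    rw [h3] at h2
    refine h2.congr' ?_
    filter_upwards [eventually_ge_atTop 1] with m hm
    have : (m : ℝ) ≠ 0 := by positivity
    field_simp
    ring
  have hlog : Tendsto (fun m : ℕ => (m : ℝ) ^ 2 * Real.log (a m)) atTop (𝓝 (-(tau E : ℝ))) := by
    have hlow : Tendsto (fun m : ℕ => ((m : ℝ) ^ 2 * (a m - 1)) / a m) atTop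
        (𝓝 (-(tau E : ℝ))) := by
      have := hsq.div hone one_ne_zero
      rwa [div_one] at this
    refine tendsto_of_tendsto_of_tendsto_of_le_of_le' hlow hsq ?_ ?_
    · filter_upwards [hone.eventually_const_lt one_pos] with m hm
      have h := Real.one_sub_inv_le_log_of_pos hm
      have : ((m : ℝ) ^ 2 * (a m - 1)) / a m = (m : ℝ) ^ 2 * (1 - (a m)⁻¹) := by
        field_simp
      rw [this]
      gcongr
    · filter_upwards [hone.eventually_const_lt one_pos] with m hm
      have h := Real.log_le_sub_one_of_pos hm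
      gcongr
  have hexp := (Real.continuous_exp.tendsto _).comp hlog
  refine hexp.congr' ?_
  filter_upwards [hone.eventually_const_lt one_pos] with m hm
  simp only [Function.comp_apply]
  have : (m : ℝ) ^ 2 * Real.log (a m) = Real.log (a m) * ((m ^ 2 : ℕ) : ℝ) := by
    push_cast; ring
  rw [this, ← Real.rpow_def_of_pos hm, Real.rpow_natCast]

end Pool.Agent.TH498.Almost
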