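import Mathlib

set_option autoImplicit false

/-!
# Normalised subgraph counts, triangle numbers and kernel densities
-/

open scoped unitInterval ENNReal NNReal

namespace Pool.Agent.TH498.Almost

/-- `emb F G`: the number of injective maps sending edges of `F` to edges of `G`. -/
noncomputable def emb {k n : ℕ} (F : SimpleGraph (Fin k)) (G : SimpleGraph (Fin n)) : ℕ :=
  Nat.card {f : Fin k → Fin n // Function.Injective f ∧ ∀ i j, F.Adj i j → G.Adj (f i) (f j)}

/-- The normalised subgraph count `s_p(F, G) = emb(F, G) / (p^{e(F)} n_(k))`. -/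
noncomputable def normCount {k n : ℕ} (p : ℝ) (F : SimpleGraph (Fin k)) (G : SimpleGraph (Fin n)) :
    ℝ :=
  (emb F G : ℝ) / (p ^ F.edgeSet.ncard * (n.descFactorial k : ℝ))

/-- The number of triangles of `F`. -/
noncomputable def triangles {k : ℕ} (F : SimpleGraph (Fin k)) : ℕ := (F.cliqueSet 3).ncard

open Classical in
/-- The density `s(F, κ)`, the integral over `[0,1]^k` of the product of `κ (x i) (x j)` over the
edges `ij` of `F`, as an extended nonnegative real. -/
noncomputable def dens {k : ℕ} (F : SimpleGraph (Fin k)) (κ : I → I → ℝ≥0) : ℝ≥0∞ :=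
  ∫⁻ x : Fin k → I, ∏ i : Fin k, ∏ j : Fin k,
    if i < j ∧ F.Adj i j then (κ (x i) (x j) : ℝ≥0∞) else 1

end Pool.Agent.TH498.Almost
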