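import Pool.Agent.TH498.Almost.Defs

set_option autoImplicit false

open scoped unitInterval ENNReal NNReal
open MeasureTheory

namespace Pool.Agent.TH498.Almost

section general

variable {Ω : Type} [MeasurableSpace Ω] (μ : Measure Ω) [IsProbabilityMeasure μ]

lemma lint_succ {k : ℕ} (f : (Fin (k + 1) → Ω) → ℝ≥0∞) (hf : Measurable f) :
    ∫⁻ x, f x ∂(Measure.pi fun _ => μ) =
      ∫⁻ a, ∫⁻ y, f (Fin.cons a y) ∂(Measure.pi fun _ : Fin k => μ) ∂μ := by
  have h := measurePreserving_piFinSuccAbove (fun _ : Fin (k + 1) => μ) 0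
  have h2 := h.symm
  have h3 := h2.lintegral_comp (f := f) hf
  rw [← h3, lintegral_prod _ (show AEMeasurable (fun a => f
    ((MeasurableEquiv.piFinSuccAbove (fun _ => Ω) 0).symm a)) _ from
      (hf.comp h2.measurable).aemeasurable)]
  refine lintegral_congr fun a => lintegral_congr fun y => ?_
  congr 1
  exact Fin.insertNth_zero' a y

lemma lint_zero (f : (Fin 0 → Ω) → ℝ≥0∞) :
    ∫⁻ x, f x ∂(Measure.pi fun _ : Fin 0 => μ) = f (fun i => i.elim0) := by
  rw [Measure.pi_of_empty, lintegral_dirac]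
  congr 1

/-- If the densities of the edge-free statistics are those of the constant one, then the codegree
is one almost everywhere, and the triangle density is one. -/
lemma triangle_eq_one (κ : Ω → Ω → ℝ≥0∞) (hκ : Measurable (Function.uncurry κ))
    (h2 : ∫⁻ a, ∫⁻ b, κ a b ∂μ ∂μ = 1)
    (h3 : ∫⁻ a, ∫⁻ b, ∫⁻ c, κ a c * κ b c ∂μ ∂μ ∂μ = 1)
    (h4 : ∫⁻ a, ∫⁻ b, (∫⁻ c, κ a c * κ b c ∂μ) * (∫⁻ d, κ a d * κ b d ∂μ) ∂μ ∂μ = 1) :
    ∫⁻ a, ∫⁻ b, κ a b * ∫⁻ c, κ a c * κ b c ∂μ ∂μ ∂μ = 1 := by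
  set D : Ω × Ω → ℝ≥0∞ := fun p => ∫⁻ c, κ p.1 c * κ p.2 c ∂μ with hD
  have hDm : Measurable D := by
    apply Measurable.lintegral_prod_right' (f := fun q : (Ω × Ω) × Ω => κ q.1.1 q.2 * κ q.1.2 q.2)
    exact (hκ.comp (measurable_fst.fst.prodMk measurable_snd)).mul
      (hκ.comp (measurable_fst.snd.prodMk measurable_snd))
  have e3 : ∫⁻ p, D p ∂(μ.prod μ) = 1 := by
    rw [lintegral_prod _ hDm.aemeasurable]; exact h3
  have e4 : ∫⁻ p, D p * D p ∂(μ.prod μ) = 1 := by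
    rw [lintegral_prod _ (show AEMeasurable (fun p => D p * D p) (μ.prod μ) from
      (hDm.mul hDm).aemeasurable)]
    exact h4
  have hfin : ∀ᵐ p ∂(μ.prod μ), D p < ∞ := ae_lt_top hDm (by rw [e3]; exact ENNReal.one_ne_top)
  have hle : ∀ᵐ p ∂(μ.prod μ), 2 * D p ≤ D p * D p + 1 := by
    filter_upwards [hfin] with p hp
    lift D p to ℝ≥0 using hp.ne with d
    norm_cast
    rw [← NNReal.coe_le_coe]
    push_cast
    nlinarith [sq_nonneg ((d : ℝ) - 1)]
  have hint1 : ∫⁻ p, 2 * D p ∂(μ.prod μ) = 2 := by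
    rw [lintegral_const_mul _ hDm, e3, mul_one]
  have hint2 : ∫⁻ p, (D p * D p + 1) ∂(μ.prod μ) = 2 := by
    rw [lintegral_add_right _ measurable_const, e4, lintegral_const, measure_univ, mul_one]
    norm_num
  have hae := ae_eq_of_ae_le_of_lintegral_le hle (by rw [hint1]; exact ENNReal.ofNat_ne_top)
    ((hDm.mul hDm).add_const 1).aemeasurable (by rw [hint1, hint2])
  have hone : ∀ᵐ p ∂(μ.prod μ), D p = 1 := by
    filter_upwards [hfin, hae] with p hp hq
    lift D p to ℝ≥0 using hp.ne with d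
    norm_cast at hq ⊢
    rw [← NNReal.coe_inj] at hq ⊢
    push_cast at hq ⊢
    have : ((d : ℝ) - 1) ^ 2 = 0 := by linarith
    have := pow_eq_zero_iff (two_ne_zero) |>.1 this
    linarith
  have hm : Measurable (fun p : Ω × Ω => κ p.1 p.2 * D p) := Measurable.mul hκ hDm
  have e5 : ∫⁻ p, κ p.1 p.2 * D p ∂(μ.prod μ) =
      ∫⁻ a, ∫⁻ b, κ a b * ∫⁻ c, κ a c * κ b c ∂μ ∂μ ∂μ := by
    rw [lintegral_prod _ hm.aemeasurable]
  rw [← e5]
  have e6 : ∫⁻ p, κ p.1 p.2 * D p ∂(μ.prod μ) = ∫⁻ p, κ p.1 p.2 ∂(μ.prod μ) := by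
    apply lintegral_congr_ae
    filter_upwards [hone] with p hp
    rw [hp, mul_one]
  rw [e6, lintegral_prod _ (show AEMeasurable (fun p : Ω × Ω => κ p.1 p.2) (μ.prod μ) from
    hκ.aemeasurable)]
  exact h2

lemma lint_two (f : (Fin 2 → Ω) → ℝ≥0∞) (hf : Measurable f) :
    ∫⁻ x, f x ∂(Measure.pi fun _ => μ) = ∫⁻ a, ∫⁻ b, f ![a, b] ∂μ ∂μ := by
  have hcons : ∀ {k : ℕ} (a : Ω), Measurable (fun y : Fin k → Ω => (Fin.cons a y : Fin (k + 1) → Ω)) := by
    intro k a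
    rw [measurable_pi_iff]
    intro i
    refine Fin.cases ?_ (fun j => ?_) i
    · simp
    · simpa using measurable_pi_apply j
  rw [lint_succ μ f hf]
  refine lintegral_congr fun a => ?_
  rw [lint_succ μ (fun y : Fin 1 → Ω => f (Fin.cons a y)) (hf.comp (hcons a))]
  refine lintegral_congr fun b => ?_
  rw [lint_zero]
  congr 1

lemma lint_three (f : (Fin 3 → Ω) → ℝ≥0∞) (hf : Measurable f) :
    ∫⁻ x, f x ∂(Measure.pi fun _ => μ) = ∫⁻ a, ∫⁻ b, ∫⁻ c, f ![a, b, c] ∂μ ∂μ ∂μ := by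
  have hcons : ∀ {k : ℕ} (a : Ω), Measurable (fun y : Fin k → Ω => (Fin.cons a y : Fin (k + 1) → Ω)) := by
    intro k a
    rw [measurable_pi_iff]
    intro i
    refine Fin.cases ?_ (fun j => ?_) i
    · simp
    · simpa using measurable_pi_apply j
  rw [lint_succ μ f hf]
  refine lintegral_congr fun a => ?_
  exact lint_two μ _ (hf.comp (hcons a))

lemma lint_four (f : (Fin 4 → Ω) → ℝ≥0∞) (hf : Measurable f) :
    ∫⁻ x, f x ∂(Measure.pi fun _ => μ) = ∫⁻ a, ∫⁻ b, ∫⁻ c, ∫⁻ d, f ![a, b, c, d] ∂μ ∂μ ∂μ ∂μ := by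
  have hcons : ∀ {k : ℕ} (a : Ω), Measurable (fun y : Fin k → Ω => (Fin.cons a y : Fin (k + 1) → Ω)) := by
    intro k a
    rw [measurable_pi_iff]
    intro i
    refine Fin.cases ?_ (fun j => ?_) i
    · simp
    · simpa using measurable_pi_apply j
  rw [lint_succ μ f hf]
  refine lintegral_congr fun a => ?_
  exact lint_three μ _ (hf.comp (hcons a))

end general

open Classical in
lemma meas_integrand {k : ℕ} (F : SimpleGraph (Fin k)) (κ : I → I → ℝ≥0)
    (hκ : Measurable (Function.uncurry κ)) :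
    Measurable (fun x : Fin k → I => ∏ i : Fin k, ∏ j : Fin k,
      if i < j ∧ F.Adj i j then (κ (x i) (x j) : ℝ≥0∞) else 1) := by
  refine Finset.measurable_prod _ fun i _ => Finset.measurable_prod _ fun j _ => ?_
  split_ifs
  · have h1 : Measurable (fun x : Fin k → I => (x i, x j)) :=
      (measurable_pi_apply i).prodMk (measurable_pi_apply j)
    exact (hκ.comp h1).coe_nnreal_ennreal
  · exact measurable_const

/-- The path with centre `2`. -/
def P3 : SimpleGraph (Fin 3) where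
  Adj i j := i ≠ j ∧ (i = 2 ∨ j = 2)
  symm := ⟨fun _ _ h => ⟨h.1.symm, h.2.symm⟩⟩
  loopless := ⟨fun _ h => h.1 rfl⟩

instance : DecidableRel P3.Adj := fun i j => inferInstanceAs (Decidable (i ≠ j ∧ (i = 2 ∨ j = 2)))

/-- The four-cycle with sides `{0, 1}` and `{2, 3}`. -/
def C4 : SimpleGraph (Fin 4) where
  Adj i j := (i.val < 2 ∧ 2 ≤ j.val) ∨ (j.val < 2 ∧ 2 ≤ i.val)
  symm := ⟨fun _ _ h => h.symm⟩
  loopless := ⟨fun _ h => by omega⟩

instance : DecidableRel C4.Adj := fun i j =>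
  inferInstanceAs (Decidable ((i.val < 2 ∧ 2 ≤ j.val) ∨ (j.val < 2 ∧ 2 ≤ i.val)))

lemma dens_K2 (κ : I → I → ℝ≥0) (hκ : Measurable (Function.uncurry κ)) :
    dens (⊤ : SimpleGraph (Fin 2)) κ = ∫⁻ a, ∫⁻ b, (κ a b : ℝ≥0∞) := by
  unfold dens
  rw [volume_pi, lint_two _ _ (meas_integrand _ κ hκ)]
  refine lintegral_congr fun a => lintegral_congr fun b => ?_
  simp [Fin.prod_univ_succ]

lemma dens_P3 (κ : I → I → ℝ≥0) (hκ : Measurable (Function.uncurry κ)) :
    dens P3 κ = ∫⁻ a, ∫⁻ b, ∫⁻ c, (κ a c : ℝ≥0∞) * κ b c := by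
  unfold dens
  rw [volume_pi, lint_three _ _ (meas_integrand _ κ hκ)]
  refine lintegral_congr fun a => lintegral_congr fun b => lintegral_congr fun c => ?_
  simp [Fin.prod_univ_succ, P3]

lemma dens_K3 (κ : I → I → ℝ≥0) (hκ : Measurable (Function.uncurry κ)) :
    dens (⊤ : SimpleGraph (Fin 3)) κ =
      ∫⁻ a, ∫⁻ b, ∫⁻ c, (κ a b : ℝ≥0∞) * ((κ a c : ℝ≥0∞) * κ b c) := by
  unfold dens
  rw [volume_pi, lint_three _ _ (meas_integrand _ κ hκ)]
  refine lintegral_congr fun a => lintegral_congr fun b => lintegral_congr fun c => ?_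
  simp [Fin.prod_univ_succ]
  try ring

lemma dens_C4 (κ : I → I → ℝ≥0) (hκ : Measurable (Function.uncurry κ)) :
    dens C4 κ =
      ∫⁻ a, ∫⁻ b, ∫⁻ c, ∫⁻ d, ((κ a c : ℝ≥0∞) * κ b c) * ((κ a d : ℝ≥0∞) * κ b d) := by
  unfold dens
  rw [volume_pi, lint_four _ _ (meas_integrand _ κ hκ)]
  refine lintegral_congr fun a => lintegral_congr fun b => lintegral_congr fun c =>
    lintegral_congr fun d => ?_
  simp [Fin.prod_univ_succ, C4]
  try ring

lemma triangles_eq {k : ℕ} (F : SimpleGraph (Fin k)) [DecidableRel F.Adj] :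
    triangles F = (F.cliqueFinset 3).card := by
  unfold triangles
  rw [← Set.ncard_coe_finset]
  congr 1
  exact (F.coe_cliqueFinset 3).symm

lemma tri_K2 : triangles (⊤ : SimpleGraph (Fin 2)) = 0 := by
  rw [triangles_eq]; decide

lemma tri_P3 : triangles P3 = 0 := by
  rw [triangles_eq]; decide

lemma tri_C4 : triangles C4 = 0 := by
  rw [triangles_eq]; decide

lemma tri_K3 : triangles (⊤ : SimpleGraph (Fin 3)) = 1 := by
  rw [triangles_eq]; decide

/-- No kernel has the densities `exp (-(number of triangles))`. -/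
theorem no_kernel : ¬ ∃ κ : I → I → ℝ≥0, Measurable (Function.uncurry κ) ∧
    (∀ x y, κ x y = κ y x) ∧
    ∀ (k : ℕ) (F : SimpleGraph (Fin k)), dens F κ = ENNReal.ofReal (Real.exp (-(triangles F : ℝ))) := by
  rintro ⟨κ, hκ, -, h⟩
  have h2 := h 2 ⊤
  have h3 := h 3 P3
  have h4 := h 4 C4
  have hK := h 3 ⊤
  rw [dens_K2 κ hκ, tri_K2] at h2
  rw [dens_P3 κ hκ, tri_P3] at h3
  rw [dens_C4 κ hκ, tri_C4] at h4
  rw [dens_K3 κ hκ, tri_K3] at hK
  simp only [Nat.cast_zero, neg_zero, Real.exp_zero, ENNReal.ofReal_one] at h2 h3 h4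
  have hm : Measurable (Function.uncurry fun x y => (κ x y : ℝ≥0∞)) := hκ.coe_nnreal_ennreal
  have hc : ∀ a b : I, Measurable fun c => (κ a c : ℝ≥0∞) * κ b c := fun a b => by
    have h1 : Measurable (fun c : I => (a, c)) := measurable_const.prodMk measurable_id
    have h2 : Measurable (fun c : I => (b, c)) := measurable_const.prodMk measurable_id
    exact (hκ.comp h1).coe_nnreal_ennreal.mul (hκ.comp h2).coe_nnreal_ennreal
  have h4' : ∫⁻ a : I, ∫⁻ b : I, (∫⁻ c : I, (κ a c : ℝ≥0∞) * κ b c) *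
      (∫⁻ d : I, (κ a d : ℝ≥0∞) * κ b d) = 1 := by
    rw [← h4]
    refine lintegral_congr fun a => lintegral_congr fun b => ?_
    rw [← lintegral_mul_const _ (hc a b)]
    refine lintegral_congr fun c => ?_
    rw [lintegral_const_mul _ (hc a b)]
  have key := triangle_eq_one (volume : Measure I) (fun x y => (κ x y : ℝ≥0∞)) hm h2 h3 h4'
  have hK' : ∫⁻ a : I, ∫⁻ b : I, (κ a b : ℝ≥0∞) * ∫⁻ c : I, (κ a c : ℝ≥0∞) * κ b c =
      ENNReal.ofReal (Real.exp (-((1 : ℕ) : ℝ))) := by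
    rw [← hK]
    refine lintegral_congr fun a => lintegral_congr fun b => ?_
    rw [lintegral_const_mul _ (hc a b)]
  rw [hK'] at key
  have h1 : Real.exp (-((1 : ℕ) : ℝ)) < 1 := by
    rw [Real.exp_lt_one_iff]; norm_num
  have h5 : ENNReal.ofReal (Real.exp (-((1 : ℕ) : ℝ))) < 1 := by
    rw [ENNReal.ofReal_lt_one]; exact h1
  rw [key] at h5
  exact lt_irrefl _ h5

end Pool.Agent.TH498.Almost
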