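import Pool.Agent.TH498.Almost.Seq
import Pool.Agent.TH498.Almost.NoKernel

set_option autoImplicit false

open Filter Topology
open scoped unitInterval ENNReal NNReal

namespace Pool.Agent.TH498.Almost

/-- Almost dense graph sequences with limit counts `exp (-(number of triangles))`. -/
theorem exists_seq (q : ℕ → ℝ) (hq : Tendsto q atTop (𝓝 0)) :
    ∃ (p : ℕ → ℝ) (G : (n : ℕ) → SimpleGraph (Fin n)),
      (∀ n, 0 < p n ∧ p n ≤ 1) ∧
      Tendsto (fun n : ℕ => Real.log (1 / p n) / Real.log n) atTop (𝓝 0) ∧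
      (∀ᶠ n in atTop, q n ≤ p n) ∧
      ∀ (k : ℕ) (F : SimpleGraph (Fin k)),
        Tendsto (fun n => normCount (p n) F (G n)) atTop
          (𝓝 (Real.exp (-(triangles F : ℝ)))) := by
  classical
  obtain ⟨enc, henc⟩ := Countable.exists_injective_nat (Σ k : ℕ, SimpleGraph (Fin k))
  let R : ℕ → ℕ → Prop := fun m n =>
    (∀ F ∈ {F : Σ k : ℕ, SimpleGraph (Fin k) | enc F ≤ m},
      |normCount (dd m) F.2 (fam m n) - lim F.2 m| < 1 / ((m : ℝ) + 1)) ∧
    |Real.log (1 / dd m) / Real.log n| < 1 / ((m : ℝ) + 1) ∧ q n ≤ dd m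
  have hR : ∀ m, ∀ᶠ n in atTop, R m n := by
    intro m
    have hm : (0 : ℝ) < 1 / ((m : ℝ) + 1) := by positivity
    refine Filter.Eventually.and ?_ (Filter.Eventually.and ?_ ?_)
    · have hfin : {F : Σ k : ℕ, SimpleGraph (Fin k) | enc F ≤ m}.Finite :=
        (Set.finite_Iic m).preimage henc.injOn
      rw [Filter.eventually_all_finite hfin]
      intro F _
      have h := tendsto_fam F.2 m
      rw [Metric.tendsto_nhds] at h
      have := h _ hm
      simpa [Real.dist_eq] using this
    · have hlog : Tendsto (fun n : ℕ => Real.log (n : ℝ)) atTop atTop :=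
        Real.tendsto_log_atTop.comp tendsto_natCast_atTop_atTop
      have h : Tendsto (fun n : ℕ => Real.log (1 / dd m) / Real.log n) atTop (𝓝 0) :=
        hlog.const_div_atTop _
      rw [Metric.tendsto_nhds] at h
      filter_upwards [h _ hm] with n hn
      rwa [Real.dist_eq, sub_zero] at hn
    · have := hq.eventually (gt_mem_nhds (dd_pos m))
      filter_upwards [this] with n hn using hn.le
  obtain ⟨φ, hφ, hRφ⟩ := diag R hR
  have hsmall : Tendsto (fun n => 1 / ((φ n : ℝ) + 1)) atTop (𝓝 0) :=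
    tendsto_one_div_add_atTop_nhds_zero_nat.comp hφ
  refine ⟨fun n => dd (φ n), fun n => fam (φ n) n, fun n => ⟨dd_pos _, dd_le _⟩, ?_, ?_, ?_⟩
  · refine squeeze_zero_norm' ?_ hsmall
    filter_upwards [hRφ] with n hn
    rw [Real.norm_eq_abs]
    exact hn.2.1.le
  · filter_upwards [hRφ] with n hn using hn.2.2
  · intro k F
    have h1 : Tendsto (fun n => lim F (φ n)) atTop (𝓝 (Real.exp (-(triangles F : ℝ)))) :=
      (tendsto_lim F).comp hφ
    have h2 : Tendsto (fun n => normCount (dd (φ n)) F (fam (φ n) n) - lim F (φ n)) atTop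
        (𝓝 0) := by
      refine squeeze_zero_norm' ?_ hsmall
      filter_upwards [hRφ, hφ.eventually_ge_atTop (enc ⟨k, F⟩)] with n hn hn2
      rw [Real.norm_eq_abs]
      exact (hn.1 ⟨k, F⟩ hn2).le
    have := h2.add h1
    simpa using this

end Pool.Agent.TH498.Almost
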