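import Pool.Agent.TH498.Almost.Chrom2

set_option autoImplicit false

open Filter Topology

namespace Pool.Agent.TH498.Almost

variable {k : ℕ}

open Classical in
/-- Pairs inside a set. -/
noncomputable def pairsIn (s : Finset (Fin k)) : Finset (Sym2 (Fin k)) :=
  s.sym2.filter fun e => ¬ e.IsDiag

lemma pairsIn_triple {a b c : Fin k} (hab : a ≠ b) (hac : a ≠ c) (hbc : b ≠ c) :
    pairsIn ({a, b, c} : Finset (Fin k)) = {s(a, b), s(a, c), s(b, c)} := by
  classical
  ext e
  induction e using Sym2.inductionOn with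
  | hf x y =>
    simp only [pairsIn, Finset.mem_filter, Finset.mk_mem_sym2_iff, Finset.mem_insert,
      Finset.mem_singleton, Sym2.mk_isDiag_iff, Sym2.eq_iff]
    constructor
    · rintro ⟨⟨rfl | rfl | rfl, rfl | rfl | rfl⟩, h⟩ <;> simp_all
    · rintro ((⟨rfl, rfl⟩ | ⟨rfl, rfl⟩) | (⟨rfl, rfl⟩ | ⟨rfl, rfl⟩) | (⟨rfl, rfl⟩ | ⟨rfl, rfl⟩)) <;>
        simp_all [Ne.symm]

lemma not_hasLeaf_triple {a b c : Fin k} (hab : a ≠ b) (hac : a ≠ c) (hbc : b ≠ c) :
    ¬ HasLeaf ({s(a, b), s(a, c), s(b, c)} : Finset (Sym2 (Fin k))) := by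
  have n1 : s(a, b) ≠ s(a, c) := by
    intro h; rw [Sym2.eq_iff] at h; rcases h with ⟨-, h⟩ | ⟨h, -⟩
    · exact hbc h
    · exact hac h
  have n2 : s(a, b) ≠ s(b, c) := by
    intro h; rw [Sym2.eq_iff] at h; rcases h with ⟨h, -⟩ | ⟨h, -⟩
    · exact hab h
    · exact hac h
  have n3 : s(a, c) ≠ s(b, c) := by
    intro h; rw [Sym2.eq_iff] at h; rcases h with ⟨h, -⟩ | ⟨h, -⟩
    · exact hab h
    · exact hac h
  rintro ⟨e, he, v, hv, hcon⟩
  simp only [Finset.mem_insert, Finset.mem_singleton] at he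
  rcases he with rfl | rfl | rfl
  · rw [Sym2.mem_iff] at hv
    rcases hv with rfl | rfl
    · exact hcon s(v, c) (by simp) (Ne.symm n1) (by simp)
    · exact hcon s(v, c) (by simp) (Ne.symm n2) (by simp)
  · rw [Sym2.mem_iff] at hv
    rcases hv with rfl | rfl
    · exact hcon s(v, b) (by simp) n1 (by simp)
    · exact hcon s(b, v) (by simp) (Ne.symm n3) (by simp)
  · rw [Sym2.mem_iff] at hv
    rcases hv with rfl | rfl
    · exact hcon s(a, v) (by simp) n2 (by simp)
    · exact hcon s(a, v) (by simp) n3 (by simp)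

/-- Structure of leafless triples. -/
lemma leafless_structure {S : Finset (Sym2 (Fin k))}
    (hS : ∀ e ∈ S, ¬ e.IsDiag) (hc : S.card = 3) (hl : ¬ HasLeaf S) :
    ∃ a b c : Fin k, a ≠ b ∧ a ≠ c ∧ b ≠ c ∧ S = {s(a, b), s(a, c), s(b, c)} := by
  classical
  obtain ⟨e1, e2, e3, h12, h13, h23, rfl⟩ := Finset.card_eq_three.1 hc
  have m1 : ¬ e1.IsDiag := hS e1 (by simp)
  have m2 : ¬ e2.IsDiag := hS e2 (by simp)
  obtain ⟨v1, hv1, hv1'⟩ := exists_not_mem m1 (Ne.symm h12)
  obtain ⟨v2, hv2, hv2'⟩ := exists_not_mem m2 h12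
  have q3 := third_eq m1 m2 h12 h13 h23 hl hv1 hv1' hv2 hv2'
  subst q3
  obtain ⟨w1, rfl⟩ := hv1
  obtain ⟨w2, rfl⟩ := hv2
  rw [Sym2.mk_isDiag_iff] at m1 m2
  rw [Sym2.mem_iff, not_or] at hv1' hv2'
  have hw : w1 = w2 := by
    by_contra hcon
    apply hl
    refine ⟨s(v1, w1), by simp, w1, by simp, ?_⟩
    intro f hf hfe
    simp only [Finset.mem_insert, Finset.mem_singleton] at hf
    rcases hf with rfl | rfl | rfl
    · exact (hfe rfl).elim
    · rw [Sym2.mem_iff, not_or]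
      exact ⟨Ne.symm hv2'.2, hcon⟩
    · rw [Sym2.mem_iff, not_or]
      exact ⟨Ne.symm m1, Ne.symm hv2'.2⟩
  subst hw
  refine ⟨w1, v1, v2, Ne.symm m1, Ne.symm m2, hv1'.1, ?_⟩
  rw [Sym2.eq_swap (a := w1) (b := v1), Sym2.eq_swap (a := w1) (b := v2)]

open Classical in
lemma tau_eq (F : SimpleGraph (Fin k)) : tau F.edgeFinset = (F.cliqueSet 3).ncard := by
  have h1 : (F.cliqueSet 3).ncard = (F.cliqueFinset 3).card := by
    rw [← Set.ncard_coe_finset]
    congr 1
    exact (F.coe_cliqueFinset 3).symm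
  rw [h1]
  unfold tau
  symm
  refine Finset.card_bij (fun s _ => pairsIn s) ?_ ?_ ?_
  · intro s hs
    rw [SimpleGraph.mem_cliqueFinset_iff, SimpleGraph.is3Clique_iff] at hs
    obtain ⟨a, b, c, hab, hac, hbc, rfl⟩ := hs
    rw [pairsIn_triple hab.ne hac.ne hbc.ne, Finset.mem_filter]
    refine ⟨?_, ?_, not_hasLeaf_triple hab.ne hac.ne hbc.ne⟩
    · rw [Finset.mem_powerset]
      intro e he
      simp only [Finset.mem_insert, Finset.mem_singleton] at he
      rw [SimpleGraph.mem_edgeFinset]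
      rcases he with rfl | rfl | rfl
      · exact hab
      · exact hac
      · exact hbc
    · rw [Finset.card_eq_three]
      have hab := hab.ne
      have hac := hac.ne
      have hbc := hbc.ne
      refine ⟨s(a, b), s(a, c), s(b, c), ?_, ?_, ?_, rfl⟩
      · intro h; rw [Sym2.eq_iff] at h; rcases h with ⟨-, h⟩ | ⟨h, -⟩
        · exact hbc h
        · exact hac h
      · intro h; rw [Sym2.eq_iff] at h; rcases h with ⟨h, -⟩ | ⟨h, -⟩
        · exact hab h
        · exact hac h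
      · intro h; rw [Sym2.eq_iff] at h; rcases h with ⟨h, -⟩ | ⟨h, -⟩
        · exact hab h
        · exact hac h
  · intro s hs t ht hst
    rw [SimpleGraph.mem_cliqueFinset_iff] at hs ht
    -- recover the set from its pairs
    have key : ∀ s : Finset (Fin k), F.IsNClique 3 s → ∀ v, v ∈ s ↔ ∃ e ∈ pairsIn s, v ∈ e := by
      intro s hs v
      rw [SimpleGraph.is3Clique_iff] at hs
      obtain ⟨a, b, c, hab, hac, hbc, rfl⟩ := hs
      rw [pairsIn_triple hab.ne hac.ne hbc.ne]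
      simp only [Finset.mem_insert, Finset.mem_singleton, exists_eq_or_imp, exists_eq_left,
        Sym2.mem_iff]
      tauto
    ext v
    rw [key s hs v, key t ht v]
    rw [show pairsIn s = pairsIn t from hst]
  · intro S hS
    rw [Finset.mem_filter, Finset.mem_powerset] at hS
    obtain ⟨hSE, hc, hl⟩ := hS
    have hd : ∀ e ∈ S, ¬ e.IsDiag := by
      intro e he
      exact F.not_isDiag_of_mem_edgeFinset (hSE he)
    obtain ⟨a, b, c, hab, hac, hbc, rfl⟩ := leafless_structure hd hc hl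
    refine ⟨{a, b, c}, ?_, pairsIn_triple hab hac hbc⟩
    rw [SimpleGraph.mem_cliqueFinset_iff, SimpleGraph.is3Clique_iff]
    have q : ∀ e ∈ ({s(a, b), s(a, c), s(b, c)} : Finset (Sym2 (Fin k))), e ∈ F.edgeSet := by
      intro e he
      exact SimpleGraph.mem_edgeFinset.1 (hSE he)
    exact ⟨a, b, c, q s(a, b) (by simp), q s(a, c) (by simp), q s(b, c) (by simp), rfl⟩

end Pool.Agent.TH498.Almost
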