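import Pool.Agent.TH498.Almost.Blow
import Pool.Agent.TH498.Almost.Tri

set_option autoImplicit false

/-!
# Tensor powers of complete graphs and the diagonal sequence
-/

open Filter Topology

namespace Pool.Agent.TH498.Almost

/-- The `r`-fold tensor power of the complete graph on `q` vertices. -/
def tensor (q r : ℕ) : SimpleGraph (Fin r → Fin q) where
  Adj x y := x ≠ y ∧ ∀ s, x s ≠ y s
  symm := ⟨fun _ _ h => ⟨h.1.symm, fun s => (h.2 s).symm⟩⟩
  loopless := ⟨fun _ h => h.1 rfl⟩

open Classical in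
lemma homs_tensor {k : ℕ} (F : SimpleGraph (Fin k)) (q : ℕ) {r : ℕ} (hr : 0 < r) :
    homs F (tensor q r) = (P q F.edgeFinset) ^ r := by
  unfold homs P
  have h1 : (Finset.univ.filter fun x : Fin k → Fin q => ∀ e ∈ F.edgeFinset, ¬ Mono x e) =
      Finset.univ.filter fun x : Fin k → Fin q => ∀ i j, F.Adj i j → x i ≠ x j := by
    ext x
    simp only [Finset.mem_filter, Finset.mem_univ, true_and, SimpleGraph.mem_edgeFinset]
    constructor
    · intro h i j hij
      have := h s(i, j) hij
      simpa [Mono] using this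
    · intro h e
      induction e using Sym2.inductionOn with
      | hf a b =>
        intro hab
        simpa [Mono] using h a b hab
  rw [h1]
  have h2 : (Finset.univ.filter fun x : Fin k → Fin q => ∀ i j, F.Adj i j → x i ≠ x j).card ^ r =
      (Fintype.piFinset fun _ : Fin r =>
        (Finset.univ.filter fun x : Fin k → Fin q => ∀ i j, F.Adj i j → x i ≠ x j)).card := by
    rw [Fintype.card_piFinset, Finset.prod_const, Finset.card_univ, Fintype.card_fin]
  rw [h2]
  refine Finset.card_bij (fun (x : Fin k → Fin r → Fin q) _ => fun s i => x i s) ?_ ?_ ?_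
  · intro x hx
    simp only [Finset.mem_filter, Finset.mem_univ, true_and, Fintype.mem_piFinset] at hx ⊢
    intro s i j hij
    exact (hx i j hij).2 s
  · intro x _ y _ hxy
    funext i s
    exact congrFun (congrFun hxy s) i
  · intro y hy
    simp only [Finset.mem_filter, Finset.mem_univ, true_and, Fintype.mem_piFinset] at hy
    refine ⟨fun i s => y s i, ?_, rfl⟩
    simp only [Finset.mem_filter, Finset.mem_univ, true_and]
    intro i j hij
    refine ⟨?_, fun s => hy s i j hij⟩
    intro h
    exact hy ⟨0, hr⟩ i j hij (congrFun h _)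

/-- A diagonal selection principle. -/
lemma diag (R : ℕ → ℕ → Prop) (h : ∀ m, ∀ᶠ n in atTop, R m n) :
    ∃ φ : ℕ → ℕ, Tendsto φ atTop atTop ∧ ∀ᶠ n in atTop, R (φ n) n := by
  classical
  have h' : ∀ m, ∃ T, ∀ n ≥ T, R m n := fun m => eventually_atTop.1 (h m)
  choose T hT using h'
  refine ⟨fun n => Nat.findGreatest (fun m => T m ≤ n) n, ?_, ?_⟩
  · rw [tendsto_atTop]
    intro M
    filter_upwards [eventually_ge_atTop (max M (T M))] with n hn
    exact Nat.le_findGreatest ((le_max_left _ _).trans hn) ((le_max_right _ _).trans hn)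
  · filter_upwards [eventually_ge_atTop (T 0)] with n hn
    apply hT
    exact Nat.findGreatest_spec (P := fun m => T m ≤ n) (Nat.zero_le n) hn

/-- Base size. -/
def qq (m : ℕ) : ℕ := m + 2

/-- The power. -/
def rr (m : ℕ) : ℕ := (m + 2) ^ 2

/-- The density of the `m`-th tensor power. -/
noncomputable def dd (m : ℕ) : ℝ := (1 - 1 / (qq m : ℝ)) ^ rr m

lemma qq_pos (m : ℕ) : (2 : ℝ) ≤ qq m := by
  unfold qq; push_cast; linarith [(Nat.cast_nonneg m : (0 : ℝ) ≤ m)]

lemma dd_pos (m : ℕ) : 0 < dd m := by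
  unfold dd
  have h := qq_pos m
  have : 1 / (qq m : ℝ) ≤ 1 / 2 := by
    apply one_div_le_one_div_of_le <;> linarith
  have : (0 : ℝ) < 1 - 1 / (qq m : ℝ) := by linarith
  positivity

lemma dd_le (m : ℕ) : dd m ≤ 1 := by
  unfold dd
  have h := qq_pos m
  have h1 : 1 / (qq m : ℝ) ≤ 1 / 2 := by
    apply one_div_le_one_div_of_le <;> linarith
  have h2 : 0 < 1 / (qq m : ℝ) := by positivity
  apply pow_le_one₀ <;> linarith

lemma NN_pos (m : ℕ) : 0 < qq m ^ rr m := by
  unfold qq; positivity

/-- The `m`-th family: blow-ups of the `m`-th tensor power. -/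
def fam (m n : ℕ) : SimpleGraph (Fin n) :=
  blow (tensor (qq m) (rr m)) (NN_pos m) finFunctionFinEquiv n

/-- The limit count of the `m`-th family. -/
noncomputable def lim {k : ℕ} (F : SimpleGraph (Fin k)) (m : ℕ) : ℝ :=
  (homs F (tensor (qq m) (rr m)) : ℝ) / ((qq m ^ rr m : ℕ) : ℝ) ^ k / dd m ^ F.edgeSet.ncard

lemma tendsto_fam {k : ℕ} (F : SimpleGraph (Fin k)) (m : ℕ) :
    Tendsto (fun n : ℕ => normCount (dd m) F (fam m n)) atTop (𝓝 (lim F m)) := by
  have h := (tendsto_emb_blow F (tensor (qq m) (rr m)) (NN_pos m) finFunctionFinEquiv).div_const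
    (dd m ^ F.edgeSet.ncard)
  refine h.congr fun n => ?_
  unfold normCount
  rw [div_div, mul_comm]
  rfl

open Classical in
lemma tendsto_lim {k : ℕ} (F : SimpleGraph (Fin k)) :
    Tendsto (lim F) atTop (𝓝 (Real.exp (-(triangles F : ℝ)))) := by
  have hE : ∀ e ∈ F.edgeFinset, ¬ e.IsDiag := fun e he => F.not_isDiag_of_mem_edgeFinset he
  have h := (tendsto_main hE).comp (tendsto_add_atTop_nat 2)
  rw [tau_eq] at h
  refine h.congr fun m => ?_
  have hc : F.edgeSet.ncard = F.edgeFinset.card := by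
    rw [← SimpleGraph.coe_edgeFinset, Set.ncard_coe_finset]
  have hr : 0 < rr m := by unfold rr; positivity
  unfold lim
  rw [homs_tensor F (qq m) hr, hc]
  unfold dd
  simp only [Function.comp_apply]
  have e1 : (m + 2) ^ 2 = rr m := rfl
  have e2 : m + 2 = qq m := rfl
  rw [e1, e2]
  push_cast
  rw [div_pow, div_pow, ← pow_mul, ← pow_mul, ← pow_mul, ← pow_mul, mul_comm k, mul_comm (rr m) (F.edgeFinset.card)]

end Pool.Agent.TH498.Almost
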